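import Pool.Agent.Helper50.KP.GoalsF

/-!
Project KP (MP_5a63b6_lc), packet ZIP: colourings of the crossings made by a program.
-/

set_option autoImplicit false

namespace Pool.Agent.Helper60.KP

open Pool.Agent.Helper50.KP

variable {G : Type}

theorem good_X [Group G] (s : Bool) (k : ℕ) (w : Word) (c : List G) (T R : List G) (g h : G)
    (hT : T.length = k) (hg : Good w c (T ++ (xr s g h ++ R))) :
    Good ((.X s, k) :: w) c (T ++ g :: h :: R) := by
  refine ⟨g, h, R, ?_, ?_⟩
  · rw [← hT, List.drop_left]
  · rw [← hT, List.take_left, List.append_assoc]
    exact hg

theorem flat_append (A B : List (G × G)) : flat (A ++ B) = flat A ++ flat B := by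
  unfold flat
  rw [List.flatMap_append]

theorem flat_cons (b : G × G) (B : List (G × G)) : flat (b :: B) = b.1 :: b.2 :: flat B := by
  unfold flat
  rw [List.flatMap_cons]
  rfl

theorem flat_nil : flat ([] : List (G × G)) = [] := rfl

theorem flat_length (B : List (G × G)) : (flat B).length = 2 * B.length := by
  induction B with
  | nil => rfl
  | cons b B ih =>
    rw [flat_cons, List.length_cons, List.length_cons, ih, List.length_cons]
    ring

theorem gZIP : Pool.Agent.Helper50.KP.ZIP := by
  intro G _ P
  induction P with
  | nil =>
    intro A B A' B' t t' p pre post ch w _ hr hg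
    have h1 : (A, t, B) = (A', t', B') := Option.some.inj hr
    obtain ⟨rfl, h2⟩ := Prod.mk.inj h1
    obtain ⟨rfl, rfl⟩ := Prod.mk.inj h2
    exact hg
  | cons I P ih =>
    intro A B A' B' t t' p pre post ch w hp hr hg
    cases I with
    | D s =>
      cases B with
      | nil =>
        cases s <;> exact absurd hr (by simp [run])
      | cons b B =>
        have hlen : (pre ++ flat A.reverse).length = p + 2 * A.length := by
          rw [List.length_append, hp, flat_length, List.length_reverse]
        cases s with
        | true =>
          have h1 := ih (cj t b :: A) B A' B' t t' p pre post ch w hp hr hg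
          show Good ((.X true, p + 2 * A.length) :: (.X true, p + 2 * A.length + 1) ::
            (low p (A.length + 1) P ++ w)) ch _
          rw [flat_cons, List.cons_append, List.cons_append]
          refine good_X true _ _ _ _ _ _ _ hlen ?_
          have h2 : pre ++ flat A.reverse ++ (xr true t b.1 ++ (b.2 :: (flat B ++ post))) =
              (pre ++ flat A.reverse ++ [t * b.1 * t⁻¹]) ++ t :: b.2 :: (flat B ++ post) := by
            simp [xr]
          rw [h2]
          refine good_X true _ _ _ _ _ _ _ (by rw [List.length_append, hlen]; rfl) ?_
          have h3 : pre ++ flat A.reverse ++ [t * b.1 * t⁻¹] ++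
              (xr true t b.2 ++ (flat B ++ post)) =
              pre ++ flat (cj t b :: A).reverse ++ t :: (flat B ++ post) := by
            rw [List.reverse_cons, flat_append, flat_cons, flat_nil]
            simp [xr, cj]
          rw [h3]
          exact h1
        | false =>
          have h1 := ih (b :: A) B A' B' ((vl b)⁻¹ * t * vl b) t' p pre post ch w hp hr hg
          show Good ((.X false, p + 2 * A.length) :: (.X false, p + 2 * A.length + 1) ::
            (low p (A.length + 1) P ++ w)) ch _
          rw [flat_cons, List.cons_append, List.cons_append]
          refine good_X false _ _ _ _ _ _ _ hlen ?_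
          have h2 : pre ++ flat A.reverse ++ (xr false t b.1 ++ (b.2 :: (flat B ++ post))) =
              (pre ++ flat A.reverse ++ [b.1]) ++
                (b.1⁻¹ * t * b.1) :: b.2 :: (flat B ++ post) := by
            simp [xr]
          rw [h2]
          refine good_X false _ _ _ _ _ _ _ (by rw [List.length_append, hlen]; rfl) ?_
          have h3 : pre ++ flat A.reverse ++ [b.1] ++
              (xr false (b.1⁻¹ * t * b.1) b.2 ++ (flat B ++ post)) =
              pre ++ flat (b :: A).reverse ++ ((vl b)⁻¹ * t * vl b) :: (flat B ++ post) := by
            rw [List.reverse_cons, flat_append, flat_cons, flat_nil]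
            simp [xr, vl, mul_assoc]
          rw [h3]
          exact h1
    | U s =>
      cases A with
      | nil =>
        cases s <;> exact absurd hr (by simp [run])
      | cons b A =>
        have hlen : (pre ++ flat A.reverse).length = p + 2 * A.length := by
          rw [List.length_append, hp, flat_length, List.length_reverse]
        have h0 : pre ++ flat (b :: A).reverse ++ t :: (flat B ++ post) =
            (pre ++ flat A.reverse ++ [b.1]) ++ b.2 :: t :: (flat B ++ post) := by
          rw [List.reverse_cons, flat_append, flat_cons, flat_nil]
          simp
        cases s with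
        | true =>
          have h1 := ih A (cj t⁻¹ b :: B) A' B' t t' p pre post ch w hp hr hg
          show Good ((.X false, p + 2 * A.length + 1) :: (.X false, p + 2 * A.length) ::
            (low p A.length P ++ w)) ch _
          rw [h0]
          refine good_X false _ _ _ _ _ _ _ (by rw [List.length_append, hlen]; rfl) ?_
          have h2 : pre ++ flat A.reverse ++ [b.1] ++ (xr false b.2 t ++ (flat B ++ post)) =
              (pre ++ flat A.reverse) ++
                b.1 :: t :: ((t⁻¹ * b.2 * t) :: (flat B ++ post)) := by
            simp [xr]
          rw [h2]
          refine good_X false _ _ _ _ _ _ _ hlen ?_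
          have h3 : pre ++ flat A.reverse ++
              (xr false b.1 t ++ ((t⁻¹ * b.2 * t) :: (flat B ++ post))) =
              pre ++ flat A.reverse ++ t :: (flat (cj t⁻¹ b :: B) ++ post) := by
            rw [flat_cons]
            simp [xr, cj]
          rw [h3]
          exact h1
        | false =>
          have h1 := ih A (b :: B) A' B' (vl b * t * (vl b)⁻¹) t' p pre post ch w hp hr hg
          show Good ((.X true, p + 2 * A.length + 1) :: (.X true, p + 2 * A.length) ::
            (low p A.length P ++ w)) ch _
          rw [h0]
          refine good_X true _ _ _ _ _ _ _ (by rw [List.length_append, hlen]; rfl) ?_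
          have h2 : pre ++ flat A.reverse ++ [b.1] ++ (xr true b.2 t ++ (flat B ++ post)) =
              (pre ++ flat A.reverse) ++
                b.1 :: (b.2 * t * b.2⁻¹) :: (b.2 :: (flat B ++ post)) := by
            simp [xr]
          rw [h2]
          refine good_X true _ _ _ _ _ _ _ hlen ?_
          have h3 : pre ++ flat A.reverse ++
              (xr true b.1 (b.2 * t * b.2⁻¹) ++ (b.2 :: (flat B ++ post))) =
              pre ++ flat A.reverse ++ (vl b * t * (vl b)⁻¹) :: (flat (b :: B) ++ post) := by
            rw [flat_cons]
            simp [xr, vl, mul_assoc]
          rw [h3]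
          exact h1

end Pool.Agent.Helper60.KP
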